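import Pool.Agent.H4.Singer.LuckDim

/-!
# Project LG: the Kazhdan direction of the approximation theorem (converse of `l2ker_trivial`)

If the `ℓ²`-kernel of a matrix over the integral group ring is trivial, then the normalized dimensions
of the kernels of the matrix at separating finite levels tend to `0`. This is the first part of
`vnDim_approx` together with `vnDim A = 0` for a trivial `ℓ²`-kernel.
-/

set_option autoImplicit false
set_option linter.unusedSectionVars false

open Filter Topology

namespace Pool.Agent.H3.KZ

open Pool.Agent.H4.Singer Pool.Agent.H4.Atiyah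

/-- the von Neumann dimension of the trivial kernel is `0` -/
theorem vnDim_eq_zero_of_trivial {G : Type} [Group G] [DecidableEq G] {k n : ℕ}
    (A : Matrix (Fin k) (Fin n) (MonoidAlgebra ℂ G)) (h : ∀ x ∈ l2ker A, x = 0) :
    vnDim A = 0 := by
  have h1 : l2ker A = {0} := by
    ext z
    constructor
    · intro hz
      exact h z hz
    · intro hz
      rw [Set.mem_singleton_iff.1 hz, l2ker_eq]
      exact map_zero _
  unfold vnDim
  rw [h1]
  refine Finset.sum_eq_zero fun j _ => ?_
  rw [Metric.infDist_singleton, dist_zero_right, lp.norm_single (by norm_num)]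
  simp

/-- Kazhdan direction: trivial `ℓ²`-kernel implies that the normalized dimensions of the kernels at
separating finite levels tend to `0`. -/
theorem kaz {G : Type} [Group G] [DecidableEq G] {P : ℕ → Type} [∀ j, Group (P j)]
    [∀ j, Fintype (P j)] (π : ∀ j, G →* P j) (hπ : ∀ g : G, g ≠ 1 → ∀ᶠ j in atTop, π j g ≠ 1)
    {k n : ℕ} (A : Matrix (Fin k) (Fin n) (MonoidAlgebra ℤ G))
    (h : ∀ x ∈ l2ker (toC A), x = 0) :
    ∀ η > (0 : ℝ), ∀ᶠ j in atTop, (k * Fintype.card (P j) : ℝ) -
      (op ((toC A).map (MonoidAlgebra.mapDomainRingHom ℂ (π j)))).rank ≤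
        η * Fintype.card (P j) := by
  intro η hη
  have h1 := (vnDim_approx π hπ (toC A)).1 η hη
  rw [vnDim_eq_zero_of_trivial _ h] at h1
  filter_upwards [h1] with j hj
  rwa [zero_add] at hj

end Pool.Agent.H3.KZ
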